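import Pool.Agent.Work.MP_c9f990_an.Tg.Main

set_option autoImplicit false

/-!
# MP_c9f990_an: at most `4 = 2 n` clusters for `n = 2` and large radius

Positions are lifted from the torus, `Kernel Φ` says that `Φ` is a periodic even nonnegative `C^1`
function which is positive at the origin, `LipGrad Φ` that its gradient is Lipschitz.  The kernel
is positive on the ball of radius `r`.
-/

open MeasureTheory Set Filter Topology

namespace Pool.Agent.Results.MP_c9f990_an.LargeRadius

open Pool.Agent.Work.MP_c9f990_an.Al

/-- On the two dimensional torus, for every kernel which is positive on the ball of radius `r`,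
if `r > 2 pi / 3`, or if `√2 (2 pi - 3 r) < r` (in particular if `r > 0.5396 pi`) and the gradient
of the kernel is Lipschitz, then for almost every initial datum the velocities converge, with at
most four distinct limits. -/
theorem result (N : ℕ) (r : ℝ) (Φ : E 2 → ℝ) (hΦ : Kernel Φ) (hr : ∀ z, ‖z‖ < r → 0 < Φ z)
    (h : 2 * Real.pi < 3 * r ∨ (LipGrad Φ ∧ √2 * (2 * Real.pi - 3 * r) < r)) :
    ∀ᵐ z : P N 2, ∀ x v : ℝ → C N 2, IsFlock Φ x v → (x 0, v 0) = z →
      ∃ c : C N 2, (∀ i, Tendsto (fun t => v t i) atTop (𝓝 (c i))) ∧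
        (Set.range c).ncard ≤ 4 := by
  have hR := Pool.Agent.Work.MP_c9f990_an.Tg.range_of hΦ hr
  rcases h with h | h
  · filter_upwards with z x v hxv _
    exact Pool.Agent.Work.MP_c9f990_an.Tg.deterministic r Φ hΦ hR h x v hxv
  · exact Pool.Agent.Work.MP_c9f990_an.Tg.generic r Φ hΦ hR h.1 h.2

end Pool.Agent.Results.MP_c9f990_an.LargeRadius
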