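import Pool.Agent.Work.MP_c9f990_an.Al.All

set_option autoImplicit false

/-!
# MP_c9f990_an: for almost every datum no group of limiting clusters ever stops interacting with
the other agents

Positions are lifted from the torus, `Kernel Φ` says that `Φ` is a periodic even nonnegative `C^1`
function which is positive at the origin.
-/

open MeasureTheory Set Filter Topology

namespace Pool.Agent.Results.MP_c9f990_an.NoSeparation

open Pool.Agent.Work.MP_c9f990_an.Al

/-- For every kernel and almost every initial datum the velocities converge, and every nonempty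
proper set of agents `Q` which is a union of limiting clusters interacts with its complement at
arbitrarily late times. -/
theorem result (n N : ℕ) (Φ : E n → ℝ) (hΦ : Kernel Φ) :
    ∀ᵐ z : P N n, ∀ x v : ℝ → C N n, IsFlock Φ x v → (x 0, v 0) = z →
      ∃ c : C N n, (∀ i, Tendsto (fun t => v t i) atTop (𝓝 (c i))) ∧
        ∀ Q : Finset (Fin N), (∃ i, i ∈ Q) → (∃ j, j ∉ Q) →
          (∀ i ∈ Q, ∀ j, c j = c i → j ∈ Q) →
          ∀ T : ℝ, ∃ t, T ≤ t ∧ ∃ i ∈ Q, ∃ j, j ∉ Q ∧ 0 < Φ (x t i - x t j) := by
  filter_upwards [all_general4 n N Φ hΦ] with z hz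
  intro x v hxv h0
  obtain ⟨c, hc, _, _, hcon⟩ := hz x v hxv h0
  exact ⟨c, hc, hcon⟩

end Pool.Agent.Results.MP_c9f990_an.NoSeparation
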