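import Pool.Agent.Work.MP_c9f990_an.Rg.All

set_option autoImplicit false

/-!
# MP_c9f990_an: for almost every datum, unless all agents align, some limiting cluster is loose

Positions are lifted from the torus, `Kernel Φ` says that `Φ` is a periodic even nonnegative `C^1`
function which is positive at the origin, `LipGrad Φ` that its gradient is Lipschitz.
-/

open MeasureTheory Set Filter Topology

namespace Pool.Agent.Results.MP_c9f990_an.RigidClusters

open Pool.Agent.Work.MP_c9f990_an.Al

/-- For every kernel with Lipschitz gradient and almost every initial datum the velocities converge,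
and if their limits are not all equal, then some limiting cluster has a nonempty proper part `A`
all of whose bonds with the rest of the cluster are simultaneously smaller than any given `δ > 0`
at arbitrarily late times. -/
theorem result (n N : ℕ) (Φ : E n → ℝ) (hΦ : Kernel Φ) (hL : LipGrad Φ) :
    ∀ᵐ z : P N n, ∀ x v : ℝ → C N n, IsFlock Φ x v → (x 0, v 0) = z →
      ∃ c : C N n, (∀ i, Tendsto (fun t => v t i) atTop (𝓝 (c i))) ∧
        ((∀ i j, c i = c j) ∨
          ∃ A : Finset (Fin N), (∀ a ∈ A, ∀ b ∈ A, c a = c b) ∧
            (∃ a ∈ A, ∃ b, b ∉ A ∧ c b = c a) ∧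
            ∀ δ : ℝ, 0 < δ → ∀ T : ℝ, ∃ t, T ≤ t ∧ ∀ a ∈ A, ∀ b, b ∉ A → c b = c a →
              Φ (x t a - x t b) < δ) := by
  filter_upwards [all_generalR n N Φ hΦ hL] with z hz
  intro x v hxv h0
  obtain ⟨c, hc, _, _, _, h⟩ := hz x v hxv h0
  exact ⟨c, hc, h⟩

end Pool.Agent.Results.MP_c9f990_an.RigidClusters
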