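import Pool.Agent.Work.MP_c9f990_an.Al.All

set_option autoImplicit false

/-!
# MP_c9f990_an: three agents align for almost every datum; at most `N - 2` clusters in general
unless the limit velocities are spread out

Positions are lifted from the torus, `Kernel Φ` says that `Φ` is a periodic even nonnegative `C^1`
function which is positive at the origin.
-/

open MeasureTheory Set Filter Topology

namespace Pool.Agent.Results.MP_c9f990_an.ThreeAgents

open Pool.Agent.Work.MP_c9f990_an.Al

/-- for almost every initial datum the velocities of the solution converge, and the vector `c` of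
their limits satisfies `G` -/
def Generic {N n : ℕ} (Φ : E n → ℝ) (G : C N n → Prop) : Prop :=
  ∀ᵐ z : P N n, ∀ x v : ℝ → C N n, IsFlock Φ x v → (x 0, v 0) = z →
    ∃ c : C N n, (∀ i, Tendsto (fun t => v t i) atTop (𝓝 (c i))) ∧ G c

/-- all velocities agree -/
def Aligned {N n : ℕ} (c : C N n) : Prop := ∀ i j, c i = c j

/-- `N - 1` different velocities, which are not collinear, and affinely span if `2 n ≤ N` -/
def Spread {N n : ℕ} (c : C N n) : Prop :=
  (Set.range c).ncard + 1 = N ∧ ¬ Collinear ℝ (Set.range c) ∧
    (2 * n ≤ N → affineSpan ℝ (Set.range c) = ⊤)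

/-- For every kernel and almost every initial datum the velocities converge, and either all limits
agree, or there are at most `N - 2` different limits, or exactly `N - 1` different limits which are
not collinear, and which affinely span the space if `2 n ≤ N`.  For three agents all limits agree,
in every dimension. -/
theorem result :
    (∀ (n N : ℕ) (Φ : E n → ℝ), Kernel Φ →
      Generic Φ (fun c : C N n => Aligned c ∨ (Set.range c).ncard + 2 ≤ N ∨ Spread c)) ∧
    (∀ (n : ℕ) (Φ : E n → ℝ), Kernel Φ → Generic Φ (fun c : C 3 n => Aligned c)) := by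
  refine ⟨fun n N Φ hΦ => ?_, fun n Φ hΦ => ?_⟩
  · filter_upwards [all_general4 n N Φ hΦ] with z hz
    intro x v hxv h0
    obtain ⟨c, hc, hfew, hspan, _⟩ := hz x v hxv h0
    refine ⟨c, hc, ?_⟩
    rcases hfew with h | h | ⟨h1, h2⟩
    · exact Or.inl h
    · exact Or.inr (Or.inl h)
    · rcases hspan with h | h
      · exact Or.inl h
      · exact Or.inr (Or.inr ⟨h1, h2, fun h3 => h h1 h3⟩)
  · filter_upwards [all_general4 n 3 Φ hΦ] with z hz
    intro x v hxv h0
    obtain ⟨c, hc, hfew, _⟩ := hz x v hxv h0
    exact ⟨c, hc, fun i j => few_three le_rfl c hfew i j⟩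

end Pool.Agent.Results.MP_c9f990_an.ThreeAgents
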